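import Mathlib

/-!
# The independence number of highly irregular trees

A tree is highly irregular if the neighbours of every vertex have pairwise different degrees.
We show that every highly irregular tree `T` of order `n ≥ 2` has independence number
`α(T) ≤ (79 n - 22) / 127`, that for `n = 26` and for all `n = 100 + 254 m` there is a highly
irregular tree of order `n` attaining `⌊(79 n - 22) / 127⌋`, and hence that the supremum of
`α(T) / n` over all highly irregular trees is exactly `79 / 127`.

The upper bound is a discharging argument along the edges of the tree, directed towards a root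
(the weights come from an optimal dual solution of a linear program).  The lower bound is an
explicit infinite family, built by joining rooted pieces by edges.
-/

open Finset SimpleGraph

namespace Pool.Agent.Results.MP_913bbb_co.SharpConstant

/-- The degree (number of neighbours) of a vertex. -/
noncomputable def deg {V : Type*} (G : SimpleGraph V) (v : V) : ℕ := (G.neighborSet v).ncard

/-- A graph is highly irregular if for every vertex `v`, any two distinct neighbours of `v` have
different degrees. -/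
def HighlyIrregular {V : Type*} (G : SimpleGraph V) : Prop :=
  ∀ v u w, G.Adj v u → G.Adj v w → u ≠ w → deg G u ≠ deg G w

/-! ### Upper bound: discharging -/

/-- base transfer -/
def base (b : Bool) (i : ℕ) : ℤ :=
  (if b then ([-48, -48, -31, -31, -31, -23, -13, -13] : List ℤ)
    else ([48, 48, 31, 0, -11, -13, -13, -13] : List ℤ)).getD (min i 7) 0

/-- correction of the transfer -/
def kk (b : Bool) (i j : ℕ) : ℤ :=
  ((if b then ([[], [], [], [0, 0, 0, 17, 6], [0, 0, 0, 17, 20, 13], [0, 0, 0, 9, 12, 10, 10],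
      [0, 0, 0, 0, 2], [0, 0, 0, 0, 2]] : List (List ℤ))
    else ([[], [], [0, 17], [0, 48, 17], [0, 59, 28, 14], [0, 61, 30, 22, 5], [0, 61, 30, 22, 18],
      [0, 61, 30, 22, 18, 10]] : List (List ℤ))).getD (min i 7) []).getD j 0

/-- transfer weights -/
def P (b : Bool) (i j : ℕ) : ℤ := base b i + kk b i j

/-- levels -/
def lev (b : Bool) (i : ℕ) : ℤ :=
  (if b then ([0, 0, 14, 22, 26, 26, 26, 26] : List ℤ)
    else ([0, 0, 0, 14, 22, 26, 26, 26] : List ℤ)).getD (min i 7) 0

theorem kk_zero (b : Bool) (i j : ℕ) (hj : 7 ≤ j) : kk b i j = 0 := by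
  have h : ∀ b : Bool, ∀ i : Fin 8, (((if b then ([[], [], [], [0, 0, 0, 17, 6],
      [0, 0, 0, 17, 20, 13], [0, 0, 0, 9, 12, 10, 10],
      [0, 0, 0, 0, 2], [0, 0, 0, 0, 2]] : List (List ℤ))
    else ([[], [], [0, 17], [0, 48, 17], [0, 59, 28, 14], [0, 61, 30, 22, 5], [0, 61, 30, 22, 18],
      [0, 61, 30, 22, 18, 10]] : List (List ℤ))).getD i []).length ≤ 7) := by decide
  unfold kk
  rw [List.getD_eq_default]
  exact (h b ⟨min i 7, by omega⟩).trans hj

theorem kk_min (b : Bool) (i j : ℕ) : kk b i j = kk b (min i 7) (min j 7) := by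
  rcases le_or_gt 7 j with h | h
  · rw [kk_zero _ _ _ h, kk_zero _ _ _ (by omega)]
  · rw [min_eq_left h.le]
    unfold kk
    rw [min_eq_left (min_le_right i 7)]

theorem base_min (b : Bool) (i : ℕ) : base b i = base b (min i 7) := by
  unfold base
  rw [min_eq_left (min_le_right i 7)]

theorem lev_min (b : Bool) (i : ℕ) : lev b i = lev b (min i 7) := by
  unfold lev
  rw [min_eq_left (min_le_right i 7)]

theorem kk_nonneg (b : Bool) (i j : ℕ) : 0 ≤ kk b i j := by
  have h : ∀ b : Bool, ∀ i j : Fin 8, 0 ≤ kk b i j := by decide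
  rw [kk_min]
  exact h b ⟨min i 7, by omega⟩ ⟨min j 7, by omega⟩

theorem lev_nonneg (b : Bool) (i : ℕ) : 0 ≤ lev b i := by
  have h : ∀ b : Bool, ∀ i : Fin 8, 0 ≤ lev b i := by decide
  rw [lev_min]
  exact h b ⟨min i 7, by omega⟩

theorem edge_ineq (b c : Bool) (i j : ℕ) (hi : 1 ≤ i) (hj : 1 ≤ j)
    (h : ¬ (b = true ∧ c = true)) :
    0 ≤ P b i j + P c j i + min (lev b i) (lev c j) := by
  have key : ∀ b c : Bool, ∀ i j : Fin 8, 1 ≤ (i : ℕ) → 1 ≤ (j : ℕ) → ¬ (b = true ∧ c = true) →
      0 ≤ (base b i + kk b i j) + (base c j + kk c j i) + min (lev b i) (lev c j) := by decide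
  unfold P
  rw [kk_min b, kk_min c, base_min b, base_min c, lev_min b, lev_min c]
  exact key b c ⟨min i 7, by omega⟩ ⟨min j 7, by omega⟩ (by simp; omega) (by simp; omega) h

theorem vert_ineq (b : Bool) (i : ℕ) (hi : 1 ≤ i) :
    (if b then 127 else 0) + base b i * i + ∑ a ∈ range 7, kk b i a + lev b i ≤ 79 := by
  have key : ∀ b : Bool, ∀ i : Fin 8, 1 ≤ (i : ℕ) →
      (if b then 127 else 0) + base b i * i + ∑ a ∈ range 7, kk b i a + lev b i ≤ 79 := by
    decide
  have key2 : ∀ b : Bool, base b 7 = -13 := by decide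
  have h1 := key b ⟨min i 7, by omega⟩ (by simp; omega)
  simp only at h1
  rw [base_min, lev_min]
  have h2 : ∀ a, kk b i a = kk b (min i 7) a := by
    intro a
    unfold kk
    rw [min_eq_left (min_le_right i 7)]
  simp only [h2]
  rcases le_or_gt 7 i with h | h
  · rw [min_eq_right h] at h1 ⊢
    rw [key2] at h1 ⊢
    have : (7 : ℤ) ≤ i := by exact_mod_cast h
    push_cast at h1
    linarith
  · rw [min_eq_left h.le] at h1 ⊢
    exact h1

set_option linter.unusedSectionVars false

variable {V : Type*} [Fintype V] (G : SimpleGraph V)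

/-- parents in a tree rooted at `r` -/
theorem exists_parent (hG : G.IsTree) (r : V) :
    ∃ par : V → V, ∀ v, v ≠ r → G.Adj v (par v) ∧ G.dist r v = G.dist r (par v) + 1 := by
  have : ∀ v, ∃ u, v ≠ r → G.Adj v u ∧ G.dist r v = G.dist r u + 1 := by
    intro v
    by_cases hv : v = r
    · exact ⟨v, fun h => absurd hv h⟩
    · obtain ⟨p, hp⟩ := hG.connected.exists_walk_length_eq_dist v r
      cases p with
      | nil => exact absurd rfl hv
      | cons h q =>
        rename_i u
        refine ⟨u, fun _ => ⟨h, ?_⟩⟩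
        have h1 : G.dist u r ≤ q.length := dist_le q
        have h2 : G.dist v r = q.length + 1 := by rw [← hp]; simp
        have h3 := hG.dist_eq_dist_add_one_of_adj r h
        rw [dist_comm (u := r) (v := v), dist_comm (u := r) (v := u)] at h3 ⊢
        omega
  choose par hpar using this
  exact ⟨par, fun v => hpar v⟩

open Classical in
/-- the darts of a tree are the `(v, parent v)` and `(parent v, v)`. -/
theorem sum_darts (hG : G.IsTree) (r : V) (par : V → V)
    (hpar : ∀ v, v ≠ r → G.Adj v (par v) ∧ G.dist r v = G.dist r (par v) + 1)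
    (F : V → V → ℤ) :
    ∑ v, ∑ u ∈ G.neighborFinset v, F v u =
      ∑ v ∈ univ.erase r, (F v (par v) + F (par v) v) := by
  have e1 : ∑ v, ∑ u ∈ G.neighborFinset v, F v u =
      ∑ p ∈ (univ : Finset (V × V)).filter (fun p => G.Adj p.1 p.2), F p.1 p.2 := by
    rw [sum_filter, ← univ_product_univ, sum_product]
    refine sum_congr rfl fun v _ => ?_
    rw [← sum_filter]
    refine sum_congr ?_ fun _ _ => rfl
    ext u
    simp
  have hcard : ((univ : Finset (V × V)).filter (fun p => G.Adj p.1 p.2)).card =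
      2 * (Fintype.card V - 1) := by
    have h1 := G.sum_degrees_eq_twice_card_edges
    have h2 := hG.card_edgeFinset
    have h3 : ((univ : Finset (V × V)).filter (fun p => G.Adj p.1 p.2)).card =
        ∑ v, G.degree v := by
      rw [card_filter, ← univ_product_univ, sum_product]
      refine sum_congr rfl fun v _ => ?_
      rw [← card_filter, ← card_neighborFinset_eq_degree]
      congr 1
      ext u
      simp
    omega
  set S1 := (univ.erase r).image (fun v => (v, par v)) with hS1
  set S2 := (univ.erase r).image (fun v => (par v, v)) with hS2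
  have inj1 : Set.InjOn (fun v => (v, par v)) ((univ.erase r : Finset V) : Set V) := by
    intro a _ b _ h
    simpa using (Prod.ext_iff.1 h).1
  have inj2 : Set.InjOn (fun v => (par v, v)) ((univ.erase r : Finset V) : Set V) := by
    intro a _ b _ h
    simpa using (Prod.ext_iff.1 h).2
  have hdisj : Disjoint S1 S2 := by
    rw [Finset.disjoint_left]
    rintro ⟨a, b⟩ h1 h2
    rw [hS1, mem_image] at h1
    rw [hS2, mem_image] at h2
    obtain ⟨v, hv, h1⟩ := h1
    obtain ⟨w, hw, h2⟩ := h2
    obtain ⟨rfl, rfl⟩ := Prod.ext_iff.1 h1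
    obtain ⟨h3, h4⟩ := Prod.ext_iff.1 h2
    simp only at h3 h4
    have a1 := (hpar v (by simpa using hv)).2
    have a2 := (hpar w (by simpa using hw)).2
    rw [h3, h4] at a2
    omega
  have hsub : S1 ∪ S2 ⊆ (univ : Finset (V × V)).filter (fun p => G.Adj p.1 p.2) := by
    intro p hp
    rw [mem_union] at hp
    rcases hp with hp | hp
    · rw [hS1, mem_image] at hp
      obtain ⟨v, hv, rfl⟩ := hp
      simpa using (hpar v (by simpa using hv)).1
    · rw [hS2, mem_image] at hp
      obtain ⟨v, hv, rfl⟩ := hp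
      simpa using (hpar v (by simpa using hv)).1.symm
  have heq : S1 ∪ S2 = (univ : Finset (V × V)).filter (fun p => G.Adj p.1 p.2) := by
    apply eq_of_subset_of_card_le hsub
    rw [hcard, card_union_of_disjoint hdisj, hS1, hS2, card_image_of_injOn inj1,
      card_image_of_injOn inj2, card_erase_of_mem (mem_univ r), card_univ]
    omega
  rw [e1, ← heq, sum_union hdisj, hS1, hS2, sum_image inj1, sum_image inj2, sum_add_distrib]

open Classical in
theorem deg_eq (v : V) : deg G v = (G.neighborFinset v).card := by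
  unfold deg
  rw [Set.ncard_eq_toFinset_card']
  rfl

open Classical in
/-- sum over neighbours of a function of the degree -/
theorem sum_nbr_le (hHI : HighlyIrregular G) (v : V) (f : ℕ → ℤ) (h0 : ∀ j, 0 ≤ f j)
    (h7 : ∀ j, 7 ≤ j → f j = 0) :
    ∑ u ∈ G.neighborFinset v, f (deg G u) ≤ ∑ a ∈ range 7, f a := by
  have inj : Set.InjOn (deg G) (G.neighborFinset v : Set V) := by
    intro a ha b hb h
    by_contra hab
    exact hHI v a b (by simpa using ha) (by simpa using hb) hab h
  rw [← sum_image (g := deg G) (f := f) inj]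
  calc ∑ x ∈ (G.neighborFinset v).image (deg G), f x
      ≤ ∑ x ∈ (G.neighborFinset v).image (deg G) ∪ range 7, f x :=
        sum_le_sum_of_subset_of_nonneg subset_union_left fun _ _ _ => h0 _
    _ = ∑ a ∈ range 7, f a := by
        symm
        apply sum_subset subset_union_right
        intro x _ hx
        exact h7 x (by simpa using hx)

open Classical in
/-- the charge of a vertex -/
noncomputable def S (I : Finset V) (v : V) : ℤ :=
  (if v ∈ I then 127 else 0) +
    ∑ u ∈ G.neighborFinset v, P (decide (v ∈ I)) (deg G v) (deg G u) +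
    lev (decide (v ∈ I)) (deg G v)

open Classical in
theorem S_le (hHI : HighlyIrregular G) (hd : ∀ v, 1 ≤ deg G v) (I : Finset V) (v : V) :
    S G I v ≤ 79 := by
  have h1 := vert_ineq (decide (v ∈ I)) (deg G v) (hd v)
  have h2 := sum_nbr_le G hHI v (kk (decide (v ∈ I)) (deg G v)) (kk_nonneg _ _) (kk_zero _ _)
  have h3 : ∑ u ∈ G.neighborFinset v, P (decide (v ∈ I)) (deg G v) (deg G u) =
      base (decide (v ∈ I)) (deg G v) * deg G v +
      ∑ u ∈ G.neighborFinset v, kk (decide (v ∈ I)) (deg G v) (deg G u) := by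
    unfold P
    rw [sum_add_distrib, sum_const, nsmul_eq_mul, deg_eq G v]
    ring
  unfold S
  rw [h3]
  have h4 : (if (decide (v ∈ I)) = true then (127 : ℤ) else 0) = if v ∈ I then 127 else 0 := by
    simp
  rw [h4] at h1
  linarith

open Classical in
theorem master (hG : G.IsTree) (hHI : HighlyIrregular G) (hd : ∀ v, 1 ≤ deg G v)
    (I : Finset V) (hI : ∀ u ∈ I, ∀ w ∈ I, ¬ G.Adj u w) (r u₀ v₀ : V) (hadj : G.Adj r u₀) :
    127 * (I.card : ℤ) + lev (decide (r ∈ I)) (deg G r) +
      (P (decide (u₀ ∈ I)) (deg G u₀) (deg G r) + P (decide (r ∈ I)) (deg G r) (deg G u₀) +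
        lev (decide (u₀ ∈ I)) (deg G u₀)) + (79 - S G I v₀) ≤ 79 * Fintype.card V := by
  obtain ⟨par, hpar⟩ := exists_parent G hG r
  have hT : ∀ v, v ≠ r → 0 ≤ P (decide (v ∈ I)) (deg G v) (deg G (par v)) +
      P (decide (par v ∈ I)) (deg G (par v)) (deg G v) + lev (decide (v ∈ I)) (deg G v) := by
    intro v hv
    have h1 := edge_ineq (decide (v ∈ I)) (decide (par v ∈ I)) (deg G v) (deg G (par v))
      (hd _) (hd _) (by
        rintro ⟨h1, h2⟩
        exact hI v (by simpa using h1) _ (by simpa using h2) (hpar v hv).1)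
    have h2 := min_le_left (lev (decide (v ∈ I)) (deg G v))
      (lev (decide (par v ∈ I)) (deg G (par v)))
    linarith
  have hsum : ∑ v, S G I v = 127 * (I.card : ℤ) + lev (decide (r ∈ I)) (deg G r) +
      ∑ v ∈ univ.erase r, (P (decide (v ∈ I)) (deg G v) (deg G (par v)) +
      P (decide (par v ∈ I)) (deg G (par v)) (deg G v) + lev (decide (v ∈ I)) (deg G v)) := by
    unfold S
    rw [sum_add_distrib, sum_add_distrib, sum_darts G hG r par hpar
      (fun v u => P (decide (v ∈ I)) (deg G v) (deg G u)), sum_add_distrib,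
      sum_add_distrib, sum_add_distrib]
    have h1 : ∑ v : V, (if v ∈ I then (127 : ℤ) else 0) = 127 * (I.card : ℤ) := by
      rw [← sum_filter]
      simp [mul_comm]
    have h2 := add_sum_erase univ (fun v => lev (decide (v ∈ I)) (deg G v)) (mem_univ r)
    rw [h1]
    linarith
  have hu₀ : u₀ ≠ r := hadj.ne'
  have hpu : par u₀ = r := by
    have h1 := (hpar u₀ hu₀).2
    have h2 : G.dist r u₀ = 1 := dist_eq_one_iff_adj.2 hadj
    have h3 : G.dist r (par u₀) = 0 := by omega
    exact ((hG.connected.dist_eq_zero_iff).1 h3).symm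
  have h1 : (P (decide (u₀ ∈ I)) (deg G u₀) (deg G r) + P (decide (r ∈ I)) (deg G r) (deg G u₀) +
        lev (decide (u₀ ∈ I)) (deg G u₀)) ≤
      ∑ v ∈ univ.erase r, (P (decide (v ∈ I)) (deg G v) (deg G (par v)) +
      P (decide (par v ∈ I)) (deg G (par v)) (deg G v) + lev (decide (v ∈ I)) (deg G v)) := by
    have := single_le_sum (f := fun v => (P (decide (v ∈ I)) (deg G v) (deg G (par v)) +
      P (decide (par v ∈ I)) (deg G (par v)) (deg G v) + lev (decide (v ∈ I)) (deg G v)))
      (s := univ.erase r) (fun v hv => hT v (by simpa using hv)) (a := u₀)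
      (by simpa using hu₀)
    simpa only [hpu] using this
  have h2 : (79 - S G I v₀) ≤ ∑ v, (79 - S G I v) :=
    single_le_sum (f := fun v => 79 - S G I v) (s := univ)
      (fun v _ => by have := S_le G hHI hd I v; linarith) (mem_univ v₀)
  rw [sum_sub_distrib, sum_const, card_univ, nsmul_eq_mul] at h2
  linarith

theorem exists_nbr (hd : ∀ v, 1 ≤ deg G v) (v : V) : ∃ u, G.Adj v u := by
  classical
  have h := hd v
  rw [deg_eq] at h
  obtain ⟨u, hu⟩ := card_pos.1 h
  exact ⟨u, by simpa using hu⟩

/-- if all neighbours of `v` have degree at most `deg v`, one of them has degree `deg v`. -/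
theorem exists_top (hHI : HighlyIrregular G) (hd : ∀ v, 1 ≤ deg G v) (v : V)
    (h : ∀ u, G.Adj v u → deg G u ≤ deg G v) (k : ℕ) (hk1 : 1 ≤ k) (hk : k ≤ deg G v) :
    ∃ u, G.Adj v u ∧ deg G u = k := by
  classical
  have inj : Set.InjOn (deg G) (G.neighborFinset v : Set V) := by
    intro a ha b hb h
    by_contra hab
    exact hHI v a b (by simpa using ha) (by simpa using hb) hab h
  have hsub : (G.neighborFinset v).image (deg G) ⊆ Icc 1 (deg G v) := by
    intro x hx
    rw [mem_image] at hx
    obtain ⟨u, hu, rfl⟩ := hx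
    rw [mem_Icc]
    exact ⟨hd u, h u (by simpa using hu)⟩
  have heq := eq_of_subset_of_card_le hsub (by
    rw [card_image_of_injOn inj, ← deg_eq, Nat.card_Icc]
    omega)
  have hmem : k ∈ (G.neighborFinset v).image (deg G) := by
    rw [heq, mem_Icc]
    exact ⟨hk1, hk⟩
  rw [mem_image] at hmem
  obtain ⟨u, hu, h⟩ := hmem
  exact ⟨u, by simpa using hu, h⟩

theorem lev_false_large {i : ℕ} (h : 4 ≤ i) : 22 ≤ lev false i := by
  have key : ∀ i : Fin 8, 4 ≤ (i : ℕ) → 22 ≤ lev false i := by decide
  rw [lev_min]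
  exact key ⟨min i 7, by omega⟩ (by simp; omega)

theorem lev_true_large {i : ℕ} (h : 3 ≤ i) : 22 ≤ lev true i := by
  have key : ∀ i : Fin 8, 3 ≤ (i : ℕ) → 22 ≤ lev true i := by decide
  rw [lev_min]
  exact key ⟨min i 7, by omega⟩ (by simp; omega)

theorem indep_bound (hG : G.IsTree) (hHI : HighlyIrregular G) (hcard : 2 ≤ Fintype.card V)
    (I : Finset V) (hI : ∀ u ∈ I, ∀ w ∈ I, ¬ G.Adj u w) :
    127 * I.card + 22 ≤ 79 * Fintype.card V := by
  classical
  have hnt : Nontrivial V := Fintype.one_lt_card_iff_nontrivial.1 hcard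
  have hd : ∀ v, 1 ≤ deg G v := by
    intro v
    rw [deg_eq, card_neighborFinset_eq_degree]
    exact hG.connected.preconnected.degree_pos_of_nontrivial v
  have hT : ∀ r u, G.Adj r u → 0 ≤ P (decide (u ∈ I)) (deg G u) (deg G r) +
      P (decide (r ∈ I)) (deg G r) (deg G u) + lev (decide (u ∈ I)) (deg G u) := by
    intro r u h
    have h1 := edge_ineq (decide (u ∈ I)) (decide (r ∈ I)) (deg G u) (deg G r)
      (hd _) (hd _) (by
        rintro ⟨h1, h2⟩
        exact hI u (by simpa using h1) _ (by simpa using h2) h.symm)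
    have h2 := min_le_left (lev (decide (u ∈ I)) (deg G u)) (lev (decide (r ∈ I)) (deg G r))
    linarith
  suffices h : 127 * (I.card : ℤ) + 22 ≤ 79 * Fintype.card V by exact_mod_cast h
  by_cases hbig : ∃ r, 22 ≤ lev (decide (r ∈ I)) (deg G r)
  · obtain ⟨r, hr⟩ := hbig
    obtain ⟨u, hu⟩ := exists_nbr G hd r
    have h1 := master G hG hHI hd I hI r u r hu
    have h2 := S_le G hHI hd I r
    have h3 := hT r u hu
    linarith
  push Not at hbig
  have hIn : ∀ v, v ∈ I → deg G v ≤ 2 := by
    intro v hv
    by_contra h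
    have h1 := hbig v
    rw [decide_eq_true hv] at h1
    exact absurd (lev_true_large (by omega)) (not_le.2 h1)
  have hOut : ∀ v, v ∉ I → deg G v ≤ 3 := by
    intro v hv
    by_contra h
    have h1 := hbig v
    rw [decide_eq_false hv] at h1
    exact absurd (lev_false_large (by omega)) (not_le.2 h1)
  have hall : ∀ v, deg G v ≤ 3 := fun v => by
    by_cases hv : v ∈ I
    · exact (hIn v hv).trans (by norm_num)
    · exact hOut v hv
  by_cases h1 : ∃ v, v ∉ I ∧ deg G v = 1
  · obtain ⟨v, hv, hv1⟩ := h1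
    obtain ⟨u, hu⟩ := exists_nbr G hd v
    have h1 := master G hG hHI hd I hI v u v hu
    have h3 := hT v u hu
    have h4 : S G I v = 48 := by
      have hN : G.neighborFinset v = {u} := by
        rw [deg_eq, card_eq_one] at hv1
        obtain ⟨w, hw⟩ := hv1
        have : u ∈ G.neighborFinset v := by simpa using hu
        rw [hw, mem_singleton] at this
        rw [hw, this]
      unfold S
      rw [hN, sum_singleton, if_neg hv, decide_eq_false hv, hv1]
      unfold P
      rw [kk_min]
      have : ∀ j : Fin 8, kk false 1 j = 0 := by decide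
      have h5 := this ⟨min (deg G u) 7, by omega⟩
      simp only at h5
      rw [show min 1 7 = 1 from rfl, h5]
      decide
    have h5 := lev_nonneg (decide (v ∈ I)) (deg G v)
    linarith
  push Not at h1
  by_cases h3 : ∃ v, v ∉ I ∧ deg G v = 3
  · obtain ⟨v, hv, hv3⟩ := h3
    obtain ⟨u, hu, hu3⟩ := exists_top G hHI hd v (fun u _ => by rw [hv3]; exact hall u) 3
      (by norm_num) (by omega)
    have huI : u ∉ I := fun h => by have := hIn u h; omega
    have h1 := master G hG hHI hd I hI v u v hu
    rw [decide_eq_false hv, decide_eq_false huI, hv3, hu3] at h1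
    have h2 := S_le G hHI hd I v
    have h5 : lev false 3 = 14 := by decide
    have h6 : P false 3 3 = 0 := by decide
    rw [h5, h6] at h1
    linarith
  push Not at h3
  -- some vertex is outside of `I`
  obtain ⟨v, hv⟩ : ∃ v, v ∉ I := by
    by_contra h
    push Not at h
    obtain ⟨x, y, hxy⟩ := hnt
    obtain ⟨u, hu⟩ := exists_nbr G hd x
    exact hI x (h x) u (h u) hu
  have hv2 : deg G v = 2 := by
    have := h1 v hv
    have := h3 v hv
    have := hOut v hv
    have := hd v
    omega
  have hall2 : ∀ v, deg G v ≤ 2 := fun v => by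
    by_cases hv : v ∈ I
    · exact hIn v hv
    · have := h3 v hv
      have := hOut v hv
      omega
  obtain ⟨u, hu, hu2⟩ := exists_top G hHI hd v (fun u _ => by rw [hv2]; exact hall2 u) 2
      (by norm_num) (by omega)
  by_cases huI : u ∈ I
  · exfalso
    obtain ⟨w, hw, hw1⟩ := exists_top G hHI hd u (fun x _ => by rw [hu2]; exact hall2 x) 1
      (by norm_num) (by omega)
    exact h1 w (fun h => hI u huI w h hw) hw1
  · have h1 := master G hG hHI hd I hI v u v hu
    rw [decide_eq_false hv, decide_eq_false huI, hv2, hu2] at h1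
    have h2 := S_le G hHI hd I v
    have h5 : lev false 2 = 0 := by decide
    have h6 : P false 2 2 = 31 := by decide
    rw [h5, h6] at h1
    linarith

/-! ### Construction -/

/-- Rooted pieces with an open root. -/
def Piece (c : Bool) (D : ℕ) (R : Finset ℕ) (n a : ℕ) : Prop :=
  ∃ (V : Type) (_ : Fintype V) (G : SimpleGraph V) (r : V) (I : Finset V) (d : V → ℕ),
    G.IsTree ∧ Fintype.card V = n ∧ I.card = a ∧ (∀ u ∈ I, ∀ w ∈ I, ¬ G.Adj u w) ∧
    (r ∈ I ↔ c = true) ∧ d r = D ∧
    (∀ v, v ≠ r → deg G v = d v) ∧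
    deg G r = R.card ∧
    (∀ u, G.Adj r u → d u ∈ R) ∧
    (∀ v u w, G.Adj v u → G.Adj v w → u ≠ w → d u ≠ d w)

theorem piece_base (c : Bool) (D : ℕ) : Piece c D ∅ 1 (if c then 1 else 0) := by
  refine ⟨Unit, inferInstance, ⊥, (), if c then {()} else ∅, fun _ => D, IsTree.of_subsingleton,
    by simp, by cases c <;> simp, by simp, by cases c <;> simp, rfl, ?_, ?_, by simp, by simp⟩
  · intro v hv
    exact absurd (Subsingleton.elim _ _) hv
  · simp [deg]

section graft

set_option linter.unusedSectionVars false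
variable {V W : Type} [Fintype V] [Fintype W] (G : SimpleGraph V) (H : SimpleGraph W) (r : V)
  (s : W)

/-- two graphs joined by one edge -/
abbrev join : SimpleGraph (V ⊕ W) := (G ⊕g H) ⊔ edge (.inl r) (.inr s)

theorem join_ll (u v : V) : (join G H r s).Adj (.inl u) (.inl v) ↔ G.Adj u v := by
  simp [edge_adj]

theorem join_rr (u v : W) : (join G H r s).Adj (.inr u) (.inr v) ↔ H.Adj u v := by
  simp [edge_adj]

theorem join_lr (u : V) (v : W) : (join G H r s).Adj (.inl u) (.inr v) ↔ (u = r ∧ v = s) := by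
  simp [edge_adj]

theorem join_rl (u : V) (v : W) : (join G H r s).Adj (.inr v) (.inl u) ↔ (u = r ∧ v = s) := by
  simp [edge_adj]
  tauto

theorem deg_inl_root : deg (join G H r s) (.inl r) = deg G r + 1 := by
  unfold deg
  have : (join G H r s).neighborSet (.inl r) =
      insert (Sum.inr s) (Sum.inl '' G.neighborSet r) := by
    ext x
    rcases x with x | x <;> simp only [mem_neighborSet, join_ll, join_lr] <;> simp
  rw [this, Set.ncard_insert_of_notMem (by simp) (Set.toFinite _),
    Set.ncard_image_of_injective _ Sum.inl_injective]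

theorem deg_inl_ne {v : V} (h : v ≠ r) : deg (join G H r s) (.inl v) = deg G v := by
  unfold deg
  have : (join G H r s).neighborSet (.inl v) = (Sum.inl '' G.neighborSet v) := by
    ext x
    rcases x with x | x <;> simp only [mem_neighborSet, join_ll, join_lr] <;> simp [h]
  rw [this, Set.ncard_image_of_injective _ Sum.inl_injective]

theorem deg_inr_root : deg (join G H r s) (.inr s) = deg H s + 1 := by
  unfold deg
  have : (join G H r s).neighborSet (.inr s) =
      insert (Sum.inl r) (Sum.inr '' H.neighborSet s) := by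
    ext x
    rcases x with x | x <;> simp only [mem_neighborSet, join_rr, join_rl] <;> simp
  rw [this, Set.ncard_insert_of_notMem (by simp) (Set.toFinite _),
    Set.ncard_image_of_injective _ Sum.inr_injective]

theorem deg_inr_ne {w : W} (h : w ≠ s) : deg (join G H r s) (.inr w) = deg H w := by
  unfold deg
  have : (join G H r s).neighborSet (.inr w) = (Sum.inr '' H.neighborSet w) := by
    ext x
    rcases x with x | x <;> simp only [mem_neighborSet, join_rr, join_rl] <;> simp [h]
  rw [this, Set.ncard_image_of_injective _ Sum.inr_injective]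

theorem join_isTree (hG : G.IsTree) (hH : H.IsTree) : (join G H r s).IsTree := by
  rw [isTree_iff_connected_and_card] at hG hH ⊢
  refine ⟨Connected.sum_sup_edge hG.1 hH.1, ?_⟩
  have h1 : (join G H r s).edgeSet = insert s(.inl r, .inr s) (G ⊕g H).edgeSet := by
    rw [edgeSet_sup, edgeSet_edge_of_ne (by simp)]
    rw [Set.insert_eq, Set.union_comm]
  have h2 : Nat.card (join G H r s).edgeSet = Nat.card (G ⊕g H).edgeSet + 1 := by
    rw [h1, Nat.card_coe_set_eq, Nat.card_coe_set_eq]
    exact Set.ncard_insert_of_notMem (by simp) (Set.toFinite _)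
  have h3 : Nat.card (G ⊕g H).edgeSet = Nat.card G.edgeSet + Nat.card H.edgeSet := by
    rw [Nat.card_congr edgeSetSumEquiv, Nat.card_sum]
  have h4 : Nat.card (V ⊕ W) = Nat.card V + Nat.card W := Nat.card_sum
  omega

end graft

theorem graft {c c' : Bool} {D D' : ℕ} {R R' : Finset ℕ} {n n' a a' : ℕ}
    (h1 : Piece c D R n a) (h2 : Piece c' D' R' n' a') (hD' : R'.card + 1 = D')
    (hDR : D ∉ R') (hDR' : D' ∉ R) (hc : ¬ (c = true ∧ c' = true)) :
    Piece c D (insert D' R) (n + n') (a + a') := by
  classical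
  obtain ⟨V, _, G, r, I, d, hT, hn, ha, hI, hr, hdr, hd, hRc, hR, hHI⟩ := h1
  obtain ⟨W, _, H, s, J, e, hT', hn', ha', hJ, hs, hes, he, hRc', hR', hHI'⟩ := h2
  refine ⟨V ⊕ W, inferInstance, join G H r s, .inl r, I.disjSum J, Sum.elim d e, ?_, ?_, ?_, ?_,
    ?_, ?_, ?_, ?_, ?_, ?_⟩
  · exact join_isTree _ _ _ _ hT hT'
  · simp [hn, hn']
  · rw [card_disjSum, ha, ha']
  · rintro (u | u) hu (w | w) hw
    · rw [join_ll]; exact hI u (by simpa using hu) w (by simpa using hw)
    · rw [join_lr]
      rintro ⟨rfl, rfl⟩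
      exact hc ⟨hr.1 (by simpa using hu), hs.1 (by simpa using hw)⟩
    · rw [join_rl]
      rintro ⟨rfl, rfl⟩
      exact hc ⟨hr.1 (by simpa using hw), hs.1 (by simpa using hu)⟩
    · rw [join_rr]; exact hJ u (by simpa using hu) w (by simpa using hw)
  · simp [hr]
  · simp [hdr]
  · rintro (v | v) hv
    · rw [deg_inl_ne _ _ _ _ (by simpa using hv)]
      exact hd v (by simpa using hv)
    · by_cases h : v = s
      · subst h
        rw [deg_inr_root, hRc', hD']
        exact hes.symm
      · rw [deg_inr_ne _ _ _ _ h]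
        exact he v h
  · rw [deg_inl_root, hRc, card_insert_of_notMem hDR']
  · rintro (u | u) hu
    · rw [join_ll] at hu
      exact mem_insert_of_mem (hR u hu)
    · rw [join_lr] at hu
      obtain ⟨-, rfl⟩ := hu
      simp [hes]
  · rintro (v | v) (u | u) (w | w) hu hw huw
    · rw [join_ll] at hu hw
      exact hHI v u w hu hw (by simpa using huw)
    · rw [join_ll] at hu; rw [join_lr] at hw
      obtain ⟨rfl, rfl⟩ := hw
      intro h
      exact hDR' (by rw [← hes, ← show d u = e w from h]; exact hR u hu)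
    · rw [join_lr] at hu; rw [join_ll] at hw
      obtain ⟨rfl, rfl⟩ := hu
      intro h
      exact hDR' (by rw [← hes, show e u = d w from h]; exact hR w hw)
    · rw [join_lr] at hu hw
      exact absurd (by rw [hu.2, hw.2]) huw
    · rw [join_rl] at hu hw
      exact absurd (by rw [hu.1, hw.1]) huw
    · rw [join_rl] at hu; rw [join_rr] at hw
      obtain ⟨rfl, rfl⟩ := hu
      intro h
      exact hDR (by rw [← hdr, show d u = e w from h]; exact hR' w hw)
    · rw [join_rr] at hu; rw [join_rl] at hw
      obtain ⟨rfl, rfl⟩ := hw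
      intro h
      exact hDR (by rw [← hdr, ← show e u = d w from h]; exact hR' u hu)
    · rw [join_rr] at hu hw
      exact hHI' v u w hu hw (by simpa using huw)


theorem graft' {c c' : Bool} {D D' : ℕ} {R R' : Finset ℕ} {n n' a a' : ℕ}
    (h1 : Piece c D R n a) (h2 : Piece c' D' R' n' a')
    (h : R'.card + 1 = D' ∧ D ∉ R' ∧ D' ∉ R ∧ ¬ (c = true ∧ c' = true)) :
    Piece c D (insert D' R) (n + n') (a + a') :=
  graft h1 h2 h.1 h.2.1 h.2.2.1 h.2.2.2

/-- a leaf in the independent set -/
theorem L1 : Piece true 1 ∅ 1 1 := piece_base true 1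

theorem A2 : Piece false 2 (insert 1 ∅) 2 1 :=
  graft' (piece_base false 2) L1 (by decide)

theorem B2 : Piece true 2 (insert 2 ∅) 3 2 :=
  graft' (piece_base true 2) A2 (by decide)

/-- a root outside of the independent set with children `L1`, `B2` -/
theorem C12 (D : ℕ) (h : D ∉ (insert 2 ∅ : Finset ℕ)) :
    Piece false D (insert 2 (insert 1 ∅)) 5 3 :=
  graft' (graft' (piece_base false D) L1 ⟨by decide, by simp, by decide, by decide⟩) B2
    ⟨by decide, h, by decide, by decide⟩

theorem A3 : Piece false 3 (insert 2 (insert 1 ∅)) 5 3 := C12 3 (by decide)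

theorem B3 : Piece true 3 (insert 3 (insert 2 ∅)) 8 5 :=
  graft' (graft' (piece_base true 3) A2 (by decide)) A3 (by decide)

theorem A4 : Piece false 4 (insert 3 (insert 2 (insert 1 ∅))) 13 8 :=
  graft' (C12 4 (by decide)) B3 (by decide)

theorem A4' : Piece false 4 (insert 4 (insert 2 (insert 1 ∅))) 18 11 :=
  graft' (C12 4 (by decide)) A4 (by decide)

theorem B3' : Piece true 3 (insert 4 (insert 3 ∅)) 24 15 :=
  graft' (graft' (piece_base true 3) A3 (by decide)) A4' (by decide)

/-- a root outside of the independent set with children `L1`, `B2`, `B3'` -/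
theorem C123 (D : ℕ) (h : D ∉ (insert 2 ∅ : Finset ℕ))
    (h' : D ∉ (insert 4 (insert 3 ∅) : Finset ℕ)) :
    Piece false D (insert 3 (insert 2 (insert 1 ∅))) 29 18 :=
  graft' (C12 D h) B3' ⟨by decide, h', by decide, by decide⟩

theorem I4 : Piece true 4 (insert 4 (insert 3 (insert 2 ∅))) 21 13 :=
  graft' (graft' (graft' (piece_base true 4) A2 (by decide)) A3 (by decide)) A4 (by decide)

theorem A5 : Piece false 5 (insert 4 (insert 3 (insert 2 (insert 1 ∅)))) 50 31 :=
  graft' (C123 5 (by decide) (by decide)) I4 (by decide)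

/-- an inner vertex of degree four with children `A3`, `A4` -/
theorem I34 : Piece true 4 (insert 4 (insert 3 ∅)) 19 12 :=
  graft' (graft' (piece_base true 4) A3 (by decide)) A4 (by decide)

theorem step {n a : ℕ} (hW : Piece false 5 (insert 4 (insert 3 (insert 2 (insert 1 ∅)))) n a) :
    Piece false 5 (insert 4 (insert 3 (insert 2 (insert 1 ∅)))) (n + 254) (a + 158) := by
  have q := graft' (C123 5 (by decide) (by decide)) hW (by decide)
  have i4 := graft' I34 q (by decide)
  have c6 := graft' (graft' (C123 6 (by decide) (by decide)) i4 (by decide)) A5 (by decide)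
  have c6' := graft' (graft' (C123 6 (by decide) (by decide)) A5 (by decide)) c6 (by decide)
  have i4' := graft' I34 c6' (by decide)
  have q' := graft' (C123 5 (by decide) (by decide)) i4' (by decide)
  convert q' using 1 <;> ring

theorem W (m : ℕ) : Piece false 5 (insert 4 (insert 3 (insert 2 (insert 1 ∅))))
    (50 + 254 * m) (31 + 158 * m) := by
  induction m with
  | zero => exact A5
  | succ m ih =>
    convert step ih using 1 <;> ring

theorem deg_iso {V W : Type*} [Fintype V] [Fintype W] {G : SimpleGraph V} {H : SimpleGraph W}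
    (φ : G ≃g H) (v : V) : deg H (φ v) = deg G v := by
  unfold deg
  have : H.neighborSet (φ v) = φ '' G.neighborSet v := by
    ext w
    obtain ⟨u, rfl⟩ := φ.surjective w
    simp only [mem_neighborSet, Set.mem_image, EmbeddingLike.apply_eq_iff_eq, exists_eq_right]
    exact φ.map_adj_iff
  rw [this, Set.ncard_image_of_injective _ φ.injective]

theorem close {c : Bool} {D : ℕ} {R : Finset ℕ} {n a : ℕ} (h : Piece c D R n a)
    (hD : R.card = D) :
    ∃ T : SimpleGraph (Fin n), T.IsTree ∧ HighlyIrregular T ∧ a ≤ T.indepNum := by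
  classical
  obtain ⟨V, _, G, r, I, d, hT, hn, ha, hI, hr, hdr, hd, hRc, hR, hHI⟩ := h
  have hdeg : ∀ v, deg G v = d v := by
    intro v
    by_cases hv : v = r
    · rw [hv, hRc, hdr, hD]
    · exact hd v hv
  let φ := G.overFinIso hn
  refine ⟨G.overFin hn, φ.isTree_iff.1 hT, ?_, ?_⟩
  · intro v u w hu hw huw
    obtain ⟨v, rfl⟩ := φ.surjective v
    obtain ⟨u, rfl⟩ := φ.surjective u
    obtain ⟨w, rfl⟩ := φ.surjective w
    rw [deg_iso, deg_iso, hdeg, hdeg]
    exact hHI v u w (φ.map_adj_iff.1 hu) (φ.map_adj_iff.1 hw) (fun h => huw (by rw [h]))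
  · have h1 : (I.map φ.toEquiv.toEmbedding).card = a := by rw [card_map, ha]
    rw [← h1]
    apply IsIndepSet.card_le_indepNum
    intro x hx y hy _
    rw [mem_coe, mem_map] at hx hy
    obtain ⟨u, hu, rfl⟩ := hx
    obtain ⟨w, hw, rfl⟩ := hy
    intro h
    exact hI u hu w hw (φ.map_adj_iff.1 h)

theorem indepNum_bound {n : ℕ} (hn : 2 ≤ n) (T : SimpleGraph (Fin n)) (hT : T.IsTree)
    (hHI : HighlyIrregular T) : 127 * T.indepNum + 22 ≤ 79 * n := by
  obtain ⟨I, hI⟩ := T.exists_isNIndepSet_indepNum
  have h := indep_bound T hT hHI (by simpa using hn) I (fun u hu w hw h =>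
    hI.isIndepSet (by simpa using hu) (by simpa using hw) h.ne h)
  rw [hI.card_eq] at h
  simpa using h

theorem family (m : ℕ) : ∃ T : SimpleGraph (Fin (100 + 254 * m)), T.IsTree ∧
    HighlyIrregular T ∧ 127 * T.indepNum + 26 = 79 * (100 + 254 * m) := by
  have h := graft' (W m) (W 0) (by decide)
  have e1 : 50 + 254 * m + (50 + 254 * 0) = 100 + 254 * m := by ring
  have e2 : 31 + 158 * m + (31 + 158 * 0) = 62 + 158 * m := by ring
  rw [e1, e2] at h
  obtain ⟨T, hT, hHI, ha⟩ := close h (by decide)
  refine ⟨T, hT, hHI, ?_⟩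
  have := indepNum_bound (by omega) T hT hHI
  omega

theorem order26 : ∃ T : SimpleGraph (Fin 26), T.IsTree ∧ HighlyIrregular T ∧
    127 * T.indepNum + 22 = 79 * 26 := by
  obtain ⟨T, hT, hHI, ha⟩ := close (graft' A4 A4 (by decide)) (by decide)
  refine ⟨T, hT, hHI, ?_⟩
  have := indepNum_bound (by omega) T hT hHI
  omega

/-- The set of all ratios `α(T) / n`, where `T` is a highly irregular tree of order `n ≥ 2`. -/
def ratios : Set ℝ :=
  {x | ∃ n : ℕ, 2 ≤ n ∧ ∃ T : SimpleGraph (Fin n), T.IsTree ∧ HighlyIrregular T ∧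
    x = (T.indepNum : ℝ) / n}

theorem isLUB_ratios : IsLUB ratios (79 / 127) := by
  constructor
  · rintro x ⟨n, hn, T, hT, hHI, rfl⟩
    have h := indepNum_bound hn T hT hHI
    have hn0 : (0 : ℝ) < n := by exact_mod_cast (by omega : 0 < n)
    rw [div_le_div_iff₀ hn0 (by norm_num)]
    have h' : (127 * T.indepNum + 22 : ℝ) ≤ 79 * n := by exact_mod_cast h
    linarith
  · intro b hb
    by_contra hlt
    push Not at hlt
    obtain ⟨m, hm⟩ := exists_nat_gt (1 / (79 / 127 - b))
    obtain ⟨T, hT, hHI, h⟩ := family m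
    have h1 := hb ⟨100 + 254 * m, by omega, T, hT, hHI, rfl⟩
    have h' : (127 * T.indepNum + 26 : ℝ) = 79 * ((100 + 254 * m : ℕ) : ℝ) := by
      exact_mod_cast h
    have hpos : (0 : ℝ) < ((100 + 254 * m : ℕ) : ℝ) := by positivity
    rw [div_le_iff₀ hpos] at h1
    have hd : 0 < 79 / 127 - b := by linarith
    rw [div_lt_iff₀ hd] at hm
    have h2 : (79 / 127 - b) * ((100 + 254 * m : ℕ) : ℝ) ≤ 26 / 127 := by nlinarith
    have h3 : (m : ℝ) ≤ ((100 + 254 * m : ℕ) : ℝ) := by
      push_cast
      have : (0 : ℝ) ≤ m := by positivity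
      linarith
    nlinarith

/-- Every highly irregular tree `T` of order `n ≥ 2` satisfies `127 α(T) + 22 ≤ 79 n`;
equality holds for some tree of order `26`, and for all `n = 100 + 254 m` some highly irregular
tree of order `n` has `α(T) = (79 n - 26) / 127 = ⌊(79 n - 22) / 127⌋`; the least upper bound of
all ratios `α(T) / n` is `79 / 127`. -/
theorem result :
    (∀ n : ℕ, 2 ≤ n → ∀ T : SimpleGraph (Fin n), T.IsTree → HighlyIrregular T →
      127 * T.indepNum + 22 ≤ 79 * n) ∧
    (∃ T : SimpleGraph (Fin 26), T.IsTree ∧ HighlyIrregular T ∧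
      127 * T.indepNum + 22 = 79 * 26) ∧
    (∀ m : ℕ, ∃ T : SimpleGraph (Fin (100 + 254 * m)), T.IsTree ∧ HighlyIrregular T ∧
      T.indepNum = (79 * (100 + 254 * m) - 22) / 127) ∧
    IsLUB ratios (79 / 127) := by
  refine ⟨fun n hn T hT hHI => indepNum_bound hn T hT hHI, order26, fun m => ?_, isLUB_ratios⟩
  obtain ⟨T, hT, hHI, h⟩ := family m
  exact ⟨T, hT, hHI, by omega⟩

end Pool.Agent.Results.MP_913bbb_co.SharpConstant
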